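import Mathlib

/-!
# Numerical inequality for the task PSP
-/

open Finset

namespace Pool.Agent.Y903.PSP

lemma card_pf_le {n : ℕ} (hn : n ≠ 0) : n.primeFactors.card ≤ Nat.log 2 n := by
  apply Nat.le_log_of_pow_le (by norm_num)
  calc 2 ^ n.primeFactors.card = ∏ _p ∈ n.primeFactors, 2 := by rw [Finset.prod_const]
    _ ≤ ∏ p ∈ n.primeFactors, p :=
      Finset.prod_le_prod' fun p hp => (Nat.prime_of_mem_primeFactors hp).two_le
    _ ≤ n := Nat.le_of_dvd (Nat.pos_of_ne_zero hn) (Nat.prod_primeFactors_dvd n)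

lemma log_real_le {w : ℕ} (hw : 1 ≤ w) : Real.log w ≤ Nat.log 2 w + 1 := by
  have h1 : w < 2 ^ (Nat.log 2 w + 1) := Nat.lt_pow_succ_log_self (by norm_num) w
  have h2 : (w : ℝ) ≤ (2 : ℝ) ^ (Nat.log 2 w + 1) := by exact_mod_cast h1.le
  have h3 : Real.log w ≤ Real.log ((2 : ℝ) ^ (Nat.log 2 w + 1)) :=
    Real.log_le_log (by exact_mod_cast hw) h2
  rw [Real.log_pow] at h3
  have h4 : Real.log 2 ≤ 1 := by
    have := Real.log_two_lt_d9
    linarith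
  push_cast at h3
  have h5 : (0 : ℝ) ≤ (Nat.log 2 w : ℝ) + 1 := by positivity
  nlinarith

lemma log_mul_le {U w2 w : ℕ} (hU : 1 ≤ U) (hw2 : 1 ≤ w2) (hw : w2 ≤ w) :
    Nat.log 2 (U * w2) ≤ U + Nat.log 2 w := by
  have h1 : U < 2 ^ (Nat.log 2 U + 1) := Nat.lt_pow_succ_log_self (by norm_num) U
  have h2 : w2 < 2 ^ (Nat.log 2 w + 1) :=
    lt_of_le_of_lt hw (Nat.lt_pow_succ_log_self (by norm_num) w)
  have h3 : U * w2 < 2 ^ (Nat.log 2 U + 1 + (Nat.log 2 w + 1)) := by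
    rw [pow_add]
    exact Nat.mul_lt_mul'' h1 h2
  have h4 : Nat.log 2 (U * w2) < Nat.log 2 U + 1 + (Nat.log 2 w + 1) :=
    Nat.log_lt_of_lt_pow (Nat.mul_ne_zero (by omega) (by omega)) h3
  have h5 : Nat.log 2 U < U := Nat.log_lt_self 2 (by omega)
  omega

lemma num {U Λ w w2 k h card D : ℕ} (hU : 1 ≤ U) (hΛ : 1 ≤ Λ) (hw2 : 1 ≤ w2) (hw : w2 ≤ w)
    (hc : U ^ 4 * Λ * (2 * (Nat.log 2 w + 2)) + k < 2 ^ h)
    (hcard : 2 ^ h ≤ card + (k + Nat.log 2 (U * w2))) (hD1 : 1 ≤ D) (hD : D ≤ U ^ 2 * w2) :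
    ((Nat.totient U * U ^ 2 * Λ : ℕ) : ℝ) * Real.log (D : ℝ) < card := by
  have h1 : Real.log D ≤ 2 * ((U : ℝ) - 1) + (Nat.log 2 w + 1) := by
    have a1 : Real.log D ≤ Real.log ((U : ℝ) ^ 2 * w) := by
      apply Real.log_le_log (by exact_mod_cast hD1)
      exact_mod_cast hD.trans (Nat.mul_le_mul_left _ hw)
    have hU0 : (U : ℝ) ≠ 0 := by positivity
    have hw0 : (w : ℝ) ≠ 0 := by
      have : 0 < w := by omega
      positivity
    rw [Real.log_mul (pow_ne_zero 2 hU0) hw0, Real.log_pow] at a1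
    have a2 := Real.log_le_sub_one_of_pos (show (0 : ℝ) < U by positivity)
    have a3 := log_real_le (show 1 ≤ w by omega)
    push_cast at a1
    linarith
  have h2 : ((Nat.totient U * U ^ 2 * Λ : ℕ) : ℝ) ≤ (U : ℝ) ^ 3 * Λ := by
    have : Nat.totient U * U ^ 2 * Λ ≤ U ^ 3 * Λ := by
      have h := Nat.totient_le U
      calc Nat.totient U * U ^ 2 * Λ ≤ U * U ^ 2 * Λ := by gcongr
        _ = U ^ 3 * Λ := by ring
    exact_mod_cast this
  have h3 : (0 : ℝ) ≤ Real.log D := Real.log_nonneg (by exact_mod_cast hD1)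
  have h4 := log_mul_le hU hw2 hw
  have h5 : ((U ^ 4 * Λ * (2 * (Nat.log 2 w + 2)) + k : ℕ) : ℝ) < card + (k + (U + Nat.log 2 w)) := by
    have : U ^ 4 * Λ * (2 * (Nat.log 2 w + 2)) + k < card + (k + (U + Nat.log 2 w)) := by omega
    exact_mod_cast this
  push_cast at h5
  set l : ℝ := (Nat.log 2 w : ℝ) with hl
  have hl0 : 0 ≤ l := by positivity
  set A : ℝ := (U : ℝ) ^ 3 * Λ with hA
  have hU1 : (1 : ℝ) ≤ U := by exact_mod_cast hU
  have hΛ1 : (1 : ℝ) ≤ Λ := by exact_mod_cast hΛ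
  have hA1 : 1 ≤ A := by
    have : (1 : ℝ) ≤ (U : ℝ) ^ 3 := one_le_pow₀ hU1
    nlinarith
  have h6 : ((Nat.totient U * U ^ 2 * Λ : ℕ) : ℝ) * Real.log D ≤ A * (2 * ((U : ℝ) - 1) + (l + 1)) :=
    mul_le_mul h2 h1 h3 (by linarith)
  have h7 : (U : ℝ) ^ 4 * Λ * (2 * (l + 2)) = A * (U * (2 * l + 4)) := by rw [hA]; ring
  have h8 : 2 * ((U : ℝ) - 1) + (l + 1) + (U + l) ≤ U * (2 * l + 4) := by nlinarith
  have h9 : A * (2 * ((U : ℝ) - 1) + (l + 1)) + (U + l) ≤ A * (U * (2 * l + 4)) := by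
    have : A * (2 * ((U : ℝ) - 1) + (l + 1)) + A * (U + l) ≤ A * (U * (2 * l + 4)) := by
      rw [← mul_add]
      exact mul_le_mul_of_nonneg_left h8 (by linarith)
    have h10 : (U + l) ≤ A * (U + l) := le_mul_of_one_le_left (by positivity) hA1
    linarith
  rw [h7] at h5
  linarith

end Pool.Agent.Y903.PSP
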