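import Pool.Agent.Y903.PSP.Dav
import Pool.Agent.Y903.PSP.Num

/-!
# Pseudoprimes `g (1 + K w u_j)` from primes `1 + K w u_j` (task PSP)
-/

open Finset

namespace Pool.Agent.Y903.PSP

open Pool.Agent.Y727.PSP

lemma prod_pf {s : Finset ℕ} (hs : ∀ p ∈ s, p.Prime) : (∏ p ∈ s, p).primeFactors = s :=
  Nat.primeFactors_prod hs

/-- (PSP) -/
theorem psp (h1 : S_DAV) (h2 : S_PPD) : S_PSP := by
  classical
  intro k K w Λ a r hk hK hw hΛ1 hΛ ha hr hp hcount
  set U := ∏ j ∈ range k, (a + j * r) with hU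
  set PS := w.primeFactors.filter (fun p => ¬ p ∣ K) with hPS
  set w1 := ∏ p ∈ w.primeFactors.filter (fun p => p ∣ K), p with hw1
  set w2 := ∏ p ∈ PS, p with hw2
  have hw0 : w ≠ 0 := hw.ne_zero
  have hU1 : 1 ≤ U := Finset.one_le_prod' fun j _ => by omega
  have hPSp : ∀ p ∈ PS, p.Prime := fun p hp =>
    Nat.prime_of_mem_primeFactors (Finset.mem_filter.1 hp).1
  have hw1p : ∀ p ∈ w.primeFactors.filter (fun p => p ∣ K), p.Prime := fun p hp =>
    Nat.prime_of_mem_primeFactors (Finset.mem_filter.1 hp).1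
  have hw12 : w1 * w2 = w := by
    rw [hw1, hw2, hPS, Finset.prod_filter_mul_prod_filter_not,
      Nat.prod_primeFactors_of_squarefree hw]
  have hw1pos : 0 < w1 := Finset.prod_pos fun p hp => (hw1p p hp).pos
  have hw2pos : 0 < w2 := Finset.prod_pos fun p hp => (hPSp p hp).pos
  have hw2d : w2 ∣ w := Dvd.intro_left _ hw12
  have hw2sq : Squarefree w2 := hw.squarefree_of_dvd hw2d
  have hw2le : w2 ≤ w := Nat.le_of_dvd (Nat.pos_of_ne_zero hw0) hw2d
  set K2 := K * w1 with hK2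
  have hK2pos : 0 < K2 := Nat.mul_pos (by omega) hw1pos
  have hK7 : 7 ≤ K2 := le_trans hK (Nat.le_mul_of_pos_right K hw1pos)
  have hcop : K2.Coprime w2 := by
    rw [hK2]
    refine Nat.Coprime.mul_left ?_ ?_
    · rw [hw2]
      refine Nat.Coprime.prod_right fun p hp => ?_
      exact ((Nat.Prime.coprime_iff_not_dvd (hPSp p hp)).2 (Finset.mem_filter.1 hp).2).symm
    · rw [← hw12] at hw
      exact (Nat.squarefree_mul_iff.1 hw).1
  have hKw : K * w = K2 * w2 := by rw [hK2, mul_assoc, hw12]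
  -- the primes `q_T`
  have hqe : ∀ T : Finset ℕ, ∃ q : ℕ, T ⊆ PS → q.Prime ∧ orderOf (2 : ZMod q) = K2 * ∏ p ∈ T, p := by
    intro T
    by_cases hT : T ⊆ PS
    · have hpos : 0 < ∏ p ∈ T, p := Finset.prod_pos fun p hp => (hPSp p (hT hp)).pos
      obtain ⟨q, hq⟩ := h2 (K2 * ∏ p ∈ T, p) (le_trans hK7 (Nat.le_mul_of_pos_right K2 hpos))
      exact ⟨q, fun _ => hq⟩
    · exact ⟨0, fun h => absurd h hT⟩
  choose q hq using hqe
  have hqinj : ∀ T ⊆ PS, ∀ T' ⊆ PS, q T = q T' → T = T' := by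
    intro T hT T' hT' h
    have e1 := (hq T hT).2
    have e2 := (hq T' hT').2
    rw [h, e2] at e1
    have e3 := Nat.eq_of_mul_eq_mul_left hK2pos e1
    rw [← prod_pf (s := T) (fun p hp => hPSp p (hT hp)), ← e3,
      prod_pf (fun p hp => hPSp p (hT' hp))]
  have hq2 : ∀ T ⊆ PS, (2 : ZMod (q T)) ≠ 0 := by
    intro T hT h0
    have : Fact (q T).Prime := ⟨(hq T hT).1⟩
    have e := (hq T hT).2
    have hpos : 0 < ∏ p ∈ T, p := Finset.prod_pos fun p hp => (hPSp p (hT hp)).pos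
    have e1 : (2 : ZMod (q T)) ^ (K2 * ∏ p ∈ T, p) = 1 := by rw [← e]; exact pow_orderOf_eq_one _
    rw [h0, zero_pow (Nat.mul_pos hK2pos hpos).ne'] at e1
    exact zero_ne_one e1
  have hqK : ∀ T ⊆ PS, (K2 : ℤ) ∣ (q T : ℤ) - 1 := by
    intro T hT
    have : Fact (q T).Prime := ⟨(hq T hT).1⟩
    have e := ZMod.orderOf_dvd_card_sub_one (hq2 T hT)
    rw [(hq T hT).2] at e
    have e1 : K2 ∣ q T - 1 := (Dvd.intro _ rfl).trans e
    have e2 : ((q T - 1 : ℕ) : ℤ) = (q T : ℤ) - 1 := by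
      rw [Nat.cast_sub (hq T hT).1.one_lt.le]; simp
    rw [← e2]
    exact_mod_cast e1
  -- the bad primes
  set B : Finset ℕ := (range k).image (fun j => 1 + K * w * (a + j * r)) ∪
    (U * w2).primeFactors with hB
  have hUw : U * w2 ≠ 0 := Nat.mul_ne_zero (by omega) hw2pos.ne'
  have hBcard : B.card ≤ k + Nat.log 2 (U * w2) := by
    refine (Finset.card_union_le _ _).trans (Nat.add_le_add ?_ (card_pf_le hUw))
    exact Finset.card_image_le.trans (by rw [Finset.card_range])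
  set Idx := PS.powerset.filter (fun T => q T ∉ B) with hIdx
  have hIcard : 2 ^ PS.card ≤ Idx.card + (k + Nat.log 2 (U * w2)) := by
    have e1 : (PS.powerset.filter (fun T => ¬ q T ∉ B)).card ≤ B.card := by
      refine Finset.card_le_card_of_injOn q ?_ ?_
      · intro T hT
        have := (Finset.mem_filter.1 hT).2
        exact not_not.1 this
      · intro T hT T' hT' h
        exact hqinj T (Finset.mem_powerset.1 (Finset.mem_filter.1 hT).1) T'
          (Finset.mem_powerset.1 (Finset.mem_filter.1 hT').1) h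
    have e2 := Finset.card_filter_add_card_filter_not (s := PS.powerset) (fun T => q T ∉ B)
    rw [Finset.card_powerset] at e2
    have e3 : Idx.card = (PS.powerset.filter (fun T => q T ∉ B)).card := rfl
    rw [← e2, e3]
    omega
  have hsub : ∀ i : {T // T ∈ Idx}, i.1 ⊆ PS := fun i =>
    Finset.mem_powerset.1 (Finset.mem_filter.1 i.2).1
  have hnB : ∀ i : {T // T ∈ Idx}, q i.1 ∉ B := fun i => (Finset.mem_filter.1 i.2).2
  set L := Nat.lcm (K2 * U ^ 2) w2 with hL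
  have hL0 : L ≠ 0 := Nat.lcm_ne_zero (Nat.mul_ne_zero hK2pos.ne' (pow_ne_zero 2 (by omega)))
    hw2pos.ne'
  have hK2L : K2 ∣ L := (Dvd.intro _ rfl).trans (Nat.dvd_lcm_left _ _)
  have hw2L : w2 ∣ L := Nat.dvd_lcm_right _ _
  have hUL : U ∣ L := (Dvd.intro (U) (by rw [pow_two])).trans
    ((Dvd.intro_left K2 rfl : U ^ 2 ∣ K2 * U ^ 2).trans (Nat.dvd_lcm_left _ _))
  have hqU : ∀ i : {T // T ∈ Idx}, (q i.1).Coprime (U * w2) := by
    intro i
    refine (Nat.Prime.coprime_iff_not_dvd (hq i.1 (hsub i)).1).2 fun h => ?_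
    exact hnB i (Finset.mem_union_right _ (Nat.mem_primeFactors.2 ⟨(hq i.1 (hsub i)).1, h, hUw⟩))
  have hqL : ∀ i : {T // T ∈ Idx}, (q i.1).Coprime L := by
    intro i
    have c1 : (q i.1).Coprime U := Nat.Coprime.coprime_dvd_right (Dvd.intro _ rfl) (hqU i)
    have c2 : (q i.1).Coprime w2 := Nat.Coprime.coprime_dvd_right (Dvd.intro_left _ rfl) (hqU i)
    have c3 : (q i.1).Coprime K2 := by
      refine (Nat.Prime.coprime_iff_not_dvd (hq i.1 (hsub i)).1).2 fun h => ?_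
      have h3 : ((q i.1 : ℕ) : ℤ) ∣ (q i.1 : ℤ) - 1 :=
        (Int.natCast_dvd_natCast.2 h).trans (hqK i.1 (hsub i))
      have h4 : ((q i.1 : ℕ) : ℤ) ∣ 1 := by
        have := dvd_sub (dvd_refl ((q i.1 : ℕ) : ℤ)) h3
        simpa using this
      have h5 : q i.1 ∣ 1 := by exact_mod_cast h4
      exact (hq i.1 (hsub i)).1.one_lt.ne' (Nat.dvd_one.1 h5)
    have c4 : (q i.1).Coprime (K2 * U ^ 2 * w2) :=
      Nat.Coprime.mul_right (Nat.Coprime.mul_right c3 (Nat.Coprime.pow_right 2 c1)) c2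
    exact Nat.Coprime.coprime_dvd_right (Nat.lcm_dvd_mul _ _) c4
  have hexp : ∀ n : ℕ, n.Coprime L → (K2 : ℤ) ∣ (n : ℤ) - 1 →
      (L : ℤ) ∣ (n : ℤ) ^ (Nat.totient U * U ^ 2 * Λ) - 1 := by
    intro n hn hn1
    exact expo n K2 U w2 Λ hn1 (Nat.Coprime.coprime_dvd_right hUL hn) hw2sq
      (Nat.Coprime.coprime_dvd_right hw2L hn)
      (fun p hp hpw => hΛ p hp (hpw.trans hw2d))
  have hLK : L / K2 ≤ U ^ 2 * w2 := by
    apply Nat.div_le_of_le_mul
    have := Nat.le_of_dvd (Nat.pos_of_ne_zero (Nat.mul_ne_zero (Nat.mul_ne_zero hK2pos.ne'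
      (pow_ne_zero 2 (by omega))) hw2pos.ne')) (Nat.lcm_dvd_mul (K2 * U ^ 2) w2)
    rw [← mul_assoc]
    exact this
  have hLK1 : 1 ≤ L / K2 := Nat.div_pos (Nat.le_of_dvd (Nat.pos_of_ne_zero hL0) hK2L) hK2pos
  have hnum := num hU1 hΛ1 hw2pos hw2le hcount hIcard hLK1 hLK
  have hm1 : 1 ≤ Nat.totient U * U ^ 2 * Λ :=
    Nat.mul_pos (Nat.mul_pos (Nat.totient_pos.2 (by omega)) (pow_pos (by omega) 2)) (by omega)
  obtain ⟨S, hS, hSd⟩ := dav_app h1 (fun i : {T // T ∈ Idx} => q i.1) L K2 _ hL0 hK2L hK2pos.ne'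
    hm1 hqL (fun i => hqK i.1 (hsub i)) hexp (by rw [Fintype.card_coe]; exact hnum)
  set g : ℕ := ∏ i ∈ S, q i.1 with hg
  have hgd : (L : ℤ) ∣ (g : ℤ) - 1 := by
    rw [hg]
    push_cast
    exact hSd
  have hg1 : 1 < g := by
    obtain ⟨i, hi⟩ := hS
    have e1 : q i.1 ∣ g := Finset.dvd_prod_of_mem (fun i : {T // T ∈ Idx} => q i.1) hi
    have e2 : 0 < g := Finset.prod_pos fun j _ => (hq j.1 (hsub j)).1.pos
    exact lt_of_lt_of_le (hq i.1 (hsub i)).1.one_lt (Nat.le_of_dvd e2 e1)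
  refine ⟨g, hg1, ?_⟩
  intro j hj
  set P := 1 + K * w * (a + j * r) with hP
  have hPp : P.Prime := hp j hj
  have huU : (a + j * r) ∣ U := Finset.dvd_prod_of_mem (fun j => a + j * r) (Finset.mem_range.2 hj)
  have hPL : ((P : ℤ) - 1) ∣ (L : ℤ) := by
    have e1 : K2 * w2 * (a + j * r) ∣ L := dvd_L hK2pos.ne' hw2sq hcop huU (by omega)
    have e2 : ((K2 * w2 * (a + j * r) : ℕ) : ℤ) = (P : ℤ) - 1 := by
      rw [hP, hKw]; push_cast; ring
    rw [← e2]
    exact_mod_cast e1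
  have hKwP : ((K2 * w2 : ℕ) : ℤ) ∣ (P : ℤ) - 1 := by
    have e2 : ((K2 * w2 * (a + j * r) : ℕ) : ℤ) = (P : ℤ) - 1 := by
      rw [hP, hKw]; push_cast; ring
    rw [← e2]
    push_cast
    exact Dvd.intro _ rfl
  have hgP1 : 1 ≤ g * P := Nat.mul_pos (by omega) hPp.pos
  have hn1 : (((g * P - 1 : ℕ)) : ℤ) = ((g : ℤ) - 1) * P + ((P : ℤ) - 1) := by
    rw [Nat.cast_sub hgP1]; push_cast; ring
  have hdP : (P - 1) ∣ g * P - 1 := by
    have e : ((P - 1 : ℕ) : ℤ) ∣ ((g * P - 1 : ℕ) : ℤ) := by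
      rw [hn1, Nat.cast_sub hPp.one_lt.le]
      push_cast
      exact dvd_add (Dvd.dvd.mul_right (hPL.trans hgd) _) dvd_rfl
    exact_mod_cast e
  have hdK : K2 * w2 ∣ g * P - 1 := by
    have e : ((K2 * w2 : ℕ) : ℤ) ∣ ((g * P - 1 : ℕ) : ℤ) := by
      rw [hn1]
      exact dvd_add (Dvd.dvd.mul_right ((hKwP.trans hPL).trans hgd) _) hKwP
    exact_mod_cast e
  refine ⟨Nat.not_prime_mul (by omega) hPp.one_lt.ne', ?_⟩
  -- divisibility
  have key : ∀ l : ℕ, l.Prime → (2 : ZMod l) ^ (g * P - 1) = 1 → l ∣ 2 ^ (g * P - 1) - 1 := by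
    intro l hl h
    rw [← CharP.cast_eq_zero_iff (ZMod l) l, Nat.cast_sub Nat.one_le_two_pow]
    push_cast
    rw [h, sub_self]
  have hgdiv : g ∣ 2 ^ (g * P - 1) - 1 := by
    have e1 : g = ∏ p ∈ S.image (fun i : {T // T ∈ Idx} => q i.1), p := by
      rw [Finset.prod_image]
      intro i hi i' hi' h
      exact Subtype.ext (hqinj i.1 (hsub i) i'.1 (hsub i') h)
    rw [e1]
    refine Finset.prod_primes_dvd _ ?_ ?_
    · intro p hp
      obtain ⟨i, _, rfl⟩ := Finset.mem_image.1 hp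
      exact (hq i.1 (hsub i)).1.prime
    · intro p hp
      obtain ⟨i, _, rfl⟩ := Finset.mem_image.1 hp
      rw [← e1]
      refine key _ (hq i.1 (hsub i)).1 ?_
      rw [← orderOf_dvd_iff_pow_eq_one, (hq i.1 (hsub i)).2]
      refine (mul_dvd_mul_left K2 ?_).trans hdK
      exact Finset.prod_dvd_prod_of_subset _ _ _ (hsub i)
  have hPdiv : P ∣ 2 ^ (g * P - 1) - 1 := by
    refine key _ hPp ?_
    have : Fact P.Prime := ⟨hPp⟩
    have h20 : (2 : ZMod P) ≠ 0 := by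
      intro h0
      have e1 : ((2 : ℕ) : ZMod P) = 0 := by exact_mod_cast h0
      rw [CharP.cast_eq_zero_iff (ZMod P) P] at e1
      have e2 := Nat.le_of_dvd (by norm_num) e1
      have e3 : 1 ≤ w * (a + j * r) := Nat.mul_pos (Nat.pos_of_ne_zero hw0) (by omega)
      have e4 : 7 * 1 ≤ K * (w * (a + j * r)) := Nat.mul_le_mul hK e3
      rw [hP, mul_assoc] at e2
      omega
    obtain ⟨t, ht⟩ := hdP
    rw [ht, pow_mul, ZMod.pow_card_sub_one_eq_one h20, one_pow]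
  have hgPcop : g.Coprime P := by
    rw [hg]
    refine Nat.Coprime.prod_left fun i _ => ?_
    refine (Nat.coprime_primes (hq i.1 (hsub i)).1 hPp).2 fun h => ?_
    refine hnB i (Finset.mem_union_left _ (Finset.mem_image.2 ⟨j, Finset.mem_range.2 hj, ?_⟩))
    exact h.symm
  have hfin : g * P ∣ 2 ^ (g * P - 1) - 1 := Nat.Coprime.mul_dvd_of_dvd_of_dvd hgPcop hgdiv hPdiv
  have e : 2 ^ (g * P) - 2 = 2 * (2 ^ (g * P - 1) - 1) := by
    obtain ⟨n, hn⟩ : ∃ n, g * P = n + 1 := ⟨g * P - 1, by omega⟩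
    rw [hn, Nat.add_sub_cancel, pow_succ]
    omega
  rw [e]
  exact Dvd.dvd.mul_left hfin 2

end Pool.Agent.Y903.PSP
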