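import Mathlib

/-!
# Elementary facts about exponents, for the task PSP
-/

open Finset

namespace Pool.Agent.Y903.PSP

/-- raising to the power `U` gains a factor `U` -/
lemma lift_pow {m U x : ℤ} {n : ℕ} (hU : U = n) (hm : U ∣ m) (hx : m ∣ x - 1) :
    m * U ∣ x ^ n - 1 := by
  have h1 : (∑ i ∈ range n, x ^ i) * (x - 1) = x ^ n - 1 := geom_sum_mul x n
  have h2 : U ∣ ∑ i ∈ range n, x ^ i := by
    have h3 : ∀ i, U ∣ x ^ i - 1 := by
      intro i
      exact (hm.trans hx).trans (sub_one_dvd_pow_sub_one x i)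
    have h4 : ∑ i ∈ range n, x ^ i = ∑ i ∈ range n, (x ^ i - 1) + U := by
      rw [Finset.sum_sub_distrib]
      simp [hU]
    rw [h4]
    exact dvd_add (Finset.dvd_sum fun i _ => h3 i) dvd_rfl
  rw [← h1, mul_comm]
  exact mul_dvd_mul h2 hx

lemma sub_one_dvd_pow {m x : ℤ} (hx : m ∣ x - 1) (n : ℕ) : m ∣ x ^ n - 1 :=
  hx.trans (sub_one_dvd_pow_sub_one x n)

lemma pow_totient_dvd (n U : ℕ) (h : n.Coprime U) : (U : ℤ) ∣ (n : ℤ) ^ (Nat.totient U) - 1 := by
  have h1 := Nat.ModEq.pow_totient h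
  have h2 := (Nat.modEq_iff_dvd.1 h1.symm)
  push_cast at h2
  exact h2

/-- first half of the exponent -/
lemma expo1 (n K2 U : ℕ) (h1 : (K2 : ℤ) ∣ (n : ℤ) - 1) (hU : n.Coprime U) :
    ((K2 * U ^ 2 : ℕ) : ℤ) ∣ (n : ℤ) ^ (Nat.totient U * U ^ 2) - 1 := by
  have ha : (U : ℤ) ∣ (n : ℤ) ^ (Nat.totient U) - 1 := pow_totient_dvd n U hU
  have hb : (K2 : ℤ) ∣ (n : ℤ) ^ (Nat.totient U) - 1 := sub_one_dvd_pow h1 _
  have hc : ((Nat.lcm K2 U : ℕ) : ℤ) ∣ (n : ℤ) ^ (Nat.totient U) - 1 := by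
    have h := Int.coe_lcm_dvd hb ha
    exact h
  have hd := lift_pow (U := (U : ℤ)) (n := U) rfl
    (Int.natCast_dvd_natCast.2 (Nat.dvd_lcm_right K2 U)) hc
  have he := lift_pow (U := (U : ℤ)) (n := U) rfl (Dvd.intro_left _ rfl) hd
  rw [← pow_mul, ← pow_mul] at he
  have hf : ((K2 * U ^ 2 : ℕ) : ℤ) ∣ ((Nat.lcm K2 U : ℕ) : ℤ) * U * U := by
    have : K2 * U ^ 2 ∣ Nat.lcm K2 U * U * U := by
      rw [pow_two, ← mul_assoc]
      exact mul_dvd_mul (mul_dvd_mul (Nat.dvd_lcm_left K2 U) dvd_rfl) dvd_rfl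
    exact_mod_cast this
  refine hf.trans ?_
  rw [pow_two U]
  exact he

/-- second half of the exponent -/
lemma expo2 (n w Λ : ℕ) (hw : Squarefree w) (hc : n.Coprime w)
    (hΛ : ∀ p : ℕ, p.Prime → p ∣ w → (p - 1) ∣ Λ) : (w : ℤ) ∣ (n : ℤ) ^ Λ - 1 := by
  have h0 : (w : ℤ) = ∏ p ∈ w.primeFactors, (p : ℤ) := by
    rw [← Nat.cast_prod, Nat.prod_primeFactors_of_squarefree hw]
  rw [h0]
  refine Finset.prod_dvd_of_coprime ?_ ?_
  · intro p hp q hq hpq
    exact Nat.isCoprime_iff_coprime.2 ((Nat.coprime_primes (Nat.prime_of_mem_primeFactors hp)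
      (Nat.prime_of_mem_primeFactors hq)).2 hpq)
  · intro p hp
    have hp1 := Nat.prime_of_mem_primeFactors hp
    have hp2 := Nat.dvd_of_mem_primeFactors hp
    obtain ⟨t, ht⟩ := hΛ p hp1 hp2
    have h1 : (p : ℤ) ∣ (n : ℤ) ^ (p - 1) - 1 := by
      have h2 := pow_totient_dvd n p (Nat.Coprime.coprime_dvd_right hp2 hc)
      rwa [Nat.totient_prime hp1] at h2
    rw [ht, pow_mul]
    exact sub_one_dvd_pow h1 t

/-- the exponent -/
lemma expo (n K2 U w Λ : ℕ) (h1 : (K2 : ℤ) ∣ (n : ℤ) - 1) (hU : n.Coprime U) (hw : Squarefree w)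
    (hc : n.Coprime w) (hΛ : ∀ p : ℕ, p.Prime → p ∣ w → (p - 1) ∣ Λ) :
    ((Nat.lcm (K2 * U ^ 2) w : ℕ) : ℤ) ∣ (n : ℤ) ^ (Nat.totient U * U ^ 2 * Λ) - 1 := by
  have ha : ((K2 * U ^ 2 : ℕ) : ℤ) ∣ (n : ℤ) ^ (Nat.totient U * U ^ 2 * Λ) - 1 := by
    rw [pow_mul]
    exact sub_one_dvd_pow (expo1 n K2 U h1 hU) Λ
  have hb : (w : ℤ) ∣ (n : ℤ) ^ (Nat.totient U * U ^ 2 * Λ) - 1 := by
    rw [mul_comm, pow_mul]
    exact sub_one_dvd_pow (expo2 n w Λ hw hc hΛ) _
  have h := Int.coe_lcm_dvd ha hb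
  exact h

/-- the numbers `p_j - 1` divide the modulus -/
lemma dvd_L {K2 w u U : ℕ} (hK : K2 ≠ 0) (hw : Squarefree w) (hKw : K2.Coprime w) (hu : u ∣ U)
    (hU : U ≠ 0) : K2 * w * u ∣ Nat.lcm (K2 * U ^ 2) w := by
  have hw0 : w ≠ 0 := hw.ne_zero
  have hu0 : u ≠ 0 := fun h => hU (by rw [h] at hu; exact Nat.eq_zero_of_zero_dvd hu)
  have hKU : K2 * U ^ 2 ≠ 0 := mul_ne_zero hK (pow_ne_zero 2 hU)
  rw [← Nat.factorization_prime_le_iff_dvd (mul_ne_zero (mul_ne_zero hK hw0) hu0)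
    (Nat.lcm_ne_zero hKU hw0)]
  intro p hp
  rw [Nat.factorization_lcm hKU hw0, Nat.factorization_mul (mul_ne_zero hK hw0) hu0,
    Nat.factorization_mul hK hw0, Nat.factorization_mul hK (pow_ne_zero 2 hU),
    Nat.factorization_pow]
  simp only [Finsupp.add_apply, Finsupp.sup_apply, Finsupp.smul_apply, smul_eq_mul]
  have h1 : w.factorization p ≤ 1 := hw.natFactorization_le_one p
  have h2 : u.factorization p ≤ U.factorization p :=
    (Nat.factorization_prime_le_iff_dvd hu0 hU).2 hu p hp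
  rcases Nat.eq_zero_or_pos (w.factorization p) with h3 | h3
  · have : K2.factorization p + 2 * U.factorization p ≤
      (K2.factorization p + 2 * U.factorization p) ⊔ w.factorization p := le_sup_left
    omega
  · have h4 : p ∣ w := Nat.dvd_of_factorization_pos h3.ne'
    have h5 : K2.factorization p = 0 := by
      apply Nat.factorization_eq_zero_of_not_dvd
      intro h6
      exact Nat.not_coprime_of_dvd_of_dvd hp.one_lt h6 h4 hKw
    have h6 : K2.factorization p + 2 * U.factorization p ≤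
      (K2.factorization p + 2 * U.factorization p) ⊔ w.factorization p := le_sup_left
    have h7 : w.factorization p ≤
      (K2.factorization p + 2 * U.factorization p) ⊔ w.factorization p := le_sup_right
    rcases Nat.eq_zero_or_pos (u.factorization p) with h8 | h8
    · omega
    · omega

end Pool.Agent.Y903.PSP
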