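import Pool.Agent.Y727.PSP.Stm
import Pool.Agent.Y903.PSP.Expo

/-!
# Application of the theorem on zero-sum sequences
-/

open Finset

namespace Pool.Agent.Y903.PSP

open Pool.Agent.Y727.PSP

lemma cast_eq_one_iff {N n : ℕ} : ((n : ℕ) : ZMod N) = 1 ↔ (N : ℤ) ∣ (n : ℤ) - 1 := by
  rw [← ZMod.intCast_zmod_eq_zero_iff_dvd]
  push_cast
  rw [sub_eq_zero]

lemma dav_app (h1 : S_DAV) {ι : Type} [Fintype ι] (q : ι → ℕ) (L K2 m : ℕ) (hL : L ≠ 0)
    (hK : K2 ∣ L) (_hK0 : K2 ≠ 0) (hm : 1 ≤ m) (hcop : ∀ i, (q i).Coprime L)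
    (hmod : ∀ i, (K2 : ℤ) ∣ (q i : ℤ) - 1)
    (hexp : ∀ n : ℕ, n.Coprime L → (K2 : ℤ) ∣ (n : ℤ) - 1 → (L : ℤ) ∣ (n : ℤ) ^ m - 1)
    (hcard : (m : ℝ) * Real.log ((L / K2 : ℕ) : ℝ) < Fintype.card ι) :
    ∃ S : Finset ι, S.Nonempty ∧ (L : ℤ) ∣ (∏ i ∈ S, (q i : ℤ)) - 1 := by
  classical
  have : NeZero L := ⟨hL⟩
  have : NeZero K2 := ⟨_hK0⟩
  let G : Subgroup (ZMod L)ˣ := (ZMod.unitsMap hK).ker
  have hG : ∀ g : G, (K2 : ℤ) ∣ ((g.1 : ZMod L).val : ℤ) - 1 := by
    intro g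
    have hg : ZMod.unitsMap hK g.1 = 1 := g.2
    have h2 : (((g.1 : ZMod L)).cast : ZMod K2) = 1 := by
      rw [← ZMod.unitsMap_val hK, hg, Units.val_one]
    rw [← cast_eq_one_iff, ZMod.natCast_val]
    exact h2
  have hpow : ∀ g : G, g ^ m = 1 := by
    intro g
    apply Subtype.ext
    apply Units.ext
    have h3 := hexp _ (ZMod.val_coe_unit_coprime g.1) (hG g)
    have h4 : (((((g.1 : ZMod L).val) ^ m : ℕ)) : ZMod L) = 1 := by
      rw [cast_eq_one_iff]
      push_cast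
      exact h3
    push_cast at h4
    rw [ZMod.natCast_zmod_val] at h4
    simpa using h4
  have hcG : Fintype.card G ≤ L / K2 := by
    have h5 : ∀ g : G, (g.1 : ZMod L).val / K2 < L / K2 := by
      intro g
      exact Nat.div_lt_div_of_lt_of_dvd hK (ZMod.val_lt _)
    have h6 : Function.Injective (fun g : G => (⟨(g.1 : ZMod L).val / K2, h5 g⟩ : Fin (L / K2))) := by
      intro g g' h
      have h7 : (g.1 : ZMod L).val / K2 = (g'.1 : ZMod L).val / K2 := congrArg Fin.val h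
      have h8 : (g.1 : ZMod L).val % K2 = (g'.1 : ZMod L).val % K2 := by
        have a := hG g
        have b := hG g'
        have c : (K2 : ℤ) ∣ ((g'.1 : ZMod L).val : ℤ) - ((g.1 : ZMod L).val : ℤ) := by
          have := dvd_sub b a
          rwa [sub_sub_sub_cancel_right] at this
        exact (Nat.modEq_iff_dvd.2 c)
      apply Subtype.ext
      apply Units.ext
      apply ZMod.val_injective L
      rw [← Nat.div_add_mod (g.1 : ZMod L).val K2, ← Nat.div_add_mod (g'.1 : ZMod L).val K2, h7, h8]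
    have := Fintype.card_le_of_injective _ h6
    rwa [Fintype.card_fin] at this
  have hmem : ∀ i, ZMod.unitOfCoprime (q i) (hcop i) ∈ G := by
    intro i
    change ZMod.unitsMap hK _ = 1
    apply Units.ext
    rw [ZMod.unitsMap_val, ZMod.coe_unitOfCoprime, ZMod.cast_natCast hK, Units.val_one]
    exact cast_eq_one_iff.2 (hmod i)
  have hcard' : (m : ℝ) * Real.log (Fintype.card G) < Fintype.card ι := by
    refine lt_of_le_of_lt ?_ hcard
    refine mul_le_mul_of_nonneg_left ?_ (Nat.cast_nonneg m)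
    apply Real.log_le_log
    · exact_mod_cast Fintype.card_pos
    · exact_mod_cast hcG
  obtain ⟨S, hS, hp⟩ := h1 G m hm hpow ι (fun i => ⟨_, hmem i⟩) hcard'
  refine ⟨S, hS, ?_⟩
  have h9 := congrArg (fun g : G => ((g.1 : (ZMod L)ˣ) : ZMod L)) hp
  simp only [Subgroup.val_finsetProd, Units.coe_prod, ZMod.coe_unitOfCoprime] at h9
  have h10 : (((∏ i ∈ S, q i : ℕ)) : ZMod L) = 1 := by
    push_cast
    simpa using h9
  rw [cast_eq_one_iff] at h10
  push_cast at h10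
  exact h10

end Pool.Agent.Y903.PSP
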